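import Pool.Agent.H726Z.Forest.Walk

set_option linter.unusedSectionVars false

namespace Pool.Agent.H726Z.Forest

open MeasureTheory Pool.Agent.H701Z.Fiid
open scoped ENNReal

variable {Γ Ω : Type*} [Group Γ] [MulAction Γ Ω] {m R : ℕ} [NeZero R]
  (V : Set Ω) (pos : Ω → Option (Fin 5 × Fin m) → Γ) (γ : Fin R → Γ) (s : (Fin m → F2) → Γ)

open Classical in
/-- the word read by the `i`-th edge of the origin -/
noncomputable def word (i : Fin 5) (z : Ω × Bits Γ) : Fin m → F2 :=
  fun x => if z.1 ∈ V then z.2 (pos z.1 (some (i, x)), 0) else 0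

open Classical in
/-- a chosen index -/
noncomputable def rsel (p : Fin R → Prop) : Fin R := if h : ∃ r, p r then h.choose else 0

theorem rsel_spec {p : Fin R → Prop} (h : ∃ r, p r) : p (rsel p) := by
  unfold rsel
  rw [dif_pos h]
  exact h.choose_spec

/-- the head of the `i`-th edge of the origin -/
noncomputable def hdd (i : Fin 5) (z : Ω × Bits Γ) : Γ :=
  γ (rsel fun r => (γ r * s (word V pos i z)) • z.1 ∈ V) * s (word V pos i z)

/-- live edges -/
def Lv (i : Fin 5) : Set (Ω × Bits Γ) :=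
  {z | z.1 ∈ V ∧ ∃ r, (γ r * s (word V pos i z)) • z.1 ∈ V}

/-- adjacency through live edges other than `e` -/
def adj (z : Ω × Bits Γ) (e : Γ × Fin 5) (u v : Γ) : Prop :=
  ∃ e' : Γ × Fin 5, e' ≠ e ∧ e'.1 • z ∈ Lv V pos γ s e'.2 ∧
    ((e'.1 = u ∧ hdd V pos γ s e'.2 (e'.1 • z) * e'.1 = v) ∨
      (e'.1 = v ∧ hdd V pos γ s e'.2 (e'.1 • z) * e'.1 = u))

/-- live edges on a cycle -/
def Cyc (i : Fin 5) : Set (Ω × Bits Γ) :=
  {z | Relation.ReflTransGen (adj V pos γ s z (1, i)) (hdd V pos γ s i z) 1}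

/-- information sites -/
def US (S : Set Ω) : Set Ω := S \ {ω | ∃ g : Γ, g • ω ∈ V ∧ pos (g • ω) none * g = 1}

variable {V pos γ s}

section comb

variable {S : Set Ω} (hS : ∀ ω ∈ V, ∀ o, pos ω o • ω ∈ S)
  (hinj : ∀ (ω : Ω) (g g' : Γ) o o', g • ω ∈ V → g' • ω ∈ V →
    pos (g • ω) o * g = pos (g' • ω) o' * g' → g = g' ∧ o = o')

include hS hinj in
theorem info_mem {ω : Ω} (hω : ω ∈ V) (x : Fin 5 × Fin m) : pos ω (some x) • ω ∈ US V pos S := by
  refine ⟨hS ω hω _, ?_⟩
  rintro ⟨g, hg, hg'⟩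
  rw [smul_smul] at hg hg'
  have := hinj ω (g * pos ω (some x)) 1 none (some x) hg (by simpa using hω) (by
    rw [← mul_assoc, hg']; simp)
  simp at this

include hS hinj in
theorem word_dep (ω : Ω) (b b' : Bits Γ)
    (h : ∀ g : Γ, g • ω ∈ US V pos S → b (g, 0) = b' (g, 0)) (g : Γ) (i : Fin 5) :
    word V pos i (g • (ω, b)) = word V pos i (g • (ω, b')) := by
  funext x
  simp only [word, Prod.smul_fst, Prod.smul_snd]
  split_ifs with hg
  · rw [Bits.smul_apply, Bits.smul_apply]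
    apply h
    rw [mul_smul]
    exact info_mem hS hinj hg _
  · rfl

theorem acyc (z : Ω × Bits Γ) (e : Γ × Fin 5)
    (he : e.1 • z ∈ Lv V pos γ s e.2 \ Cyc V pos γ s e.2) :
    ¬ Relation.ReflTransGen
      (fun u v => ∃ e' : Γ × Fin 5, e' ≠ e ∧ e'.1 • z ∈ Lv V pos γ s e'.2 \ Cyc V pos γ s e'.2 ∧
        ((e'.1 = u ∧ hdd V pos γ s e'.2 (e'.1 • z) * e'.1 = v) ∨
          (e'.1 = v ∧ hdd V pos γ s e'.2 (e'.1 • z) * e'.1 = u)))
      (hdd V pos γ s e.2 (e.1 • z) * e.1) e.1 := by
  intro h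
  apply he.2
  have := Relation.ReflTransGen.lift (p := adj V pos γ s (e.1 • z) (1, e.2))
    (fun u => u * e.1⁻¹) (by
      rintro u v ⟨e', h1, h2, h3⟩
      have h4 : (e'.1 * e.1⁻¹) • e.1 • z = e'.1 • z := by rw [smul_smul]; simp
      refine ⟨(e'.1 * e.1⁻¹, e'.2), ?_, ?_, ?_⟩
      · intro h
        apply h1
        rw [Prod.mk.injEq, mul_inv_eq_one] at h
        exact Prod.ext h.1 h.2
      · simp only [h4]; exact h2.1
      · simp only [h4]
        rcases h3 with ⟨rfl, rfl⟩ | ⟨rfl, rfl⟩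
        · exact Or.inl ⟨rfl, by rw [mul_assoc]⟩
        · exact Or.inr ⟨rfl, by rw [mul_assoc]⟩) _ _ h
  simpa [Function.onFun, Cyc] using this

include hinj in
theorem cyc_bound [DecidableEq Γ] (q : ℝ≥0∞)
    (hk : ∀ (n : ℕ) (l r : Fin n → Γ) (ε : Fin n → Bool),
      (((Finset.univ : Finset (Fin n → Fin m → F2)).filter fun w =>
        (List.ofFn fun k => l k * (if ε k then s (w k) else (s (w k))⁻¹) * r k).prod = 1).card :
          ℝ≥0∞) ≤ (q * 2 ^ m) ^ n)
    (hq : 2 * (5 * R) * q ≤ 4⁻¹ * 2⁻¹) (ω : Ω) (i : Fin 5) :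
    bitsM Γ {b | (ω, b) ∈ Lv V pos γ s i ∩ Cyc V pos γ s i} ≤ 4⁻¹ := by
  classical
  let dir : (Bool × Fin 5 × Fin R) × (Fin m → F2) → Bool := fun c => c.1.1
  let slot : (Bool × Fin 5 × Fin R) × (Fin m → F2) → Fin 5 := fun c => c.1.2.1
  let mul : (Bool × Fin 5 × Fin R) × (Fin m → F2) → Γ := fun c => γ c.1.2.2 * s c.2
  let F : ∀ N : ℕ, (Fin N → Bool × Fin 5 × Fin R) → Finset (Fin N → Fin m → F2) := fun N p =>
    Finset.univ.filter fun w => (List.ofFn fun k => (if (p k).1 then 1 else γ (p k).2.2) *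
      (if !(p k).1 then s (w k) else (s (w k))⁻¹) *
        (if (p k).1 then (γ (p k).2.2)⁻¹ else 1)).prod = 1
  let A : ∀ N : ℕ, (Fin N → Bool × Fin 5 × Fin R) → (Fin N → Fin m → F2) → Set (Bits Γ) :=
    fun N p w => {b | Function.Injective (eAt dir slot mul fun k => (p k, w k)) ∧
      ∀ k, (eAt dir slot mul (fun k => (p k, w k)) k).1 • ω ∈ V ∧
        word V pos (eAt dir slot mul (fun k => (p k, w k)) k).2
          ((eAt dir slot mul (fun k => (p k, w k)) k).1 • (ω, b)) = w k}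
  have hsub : {b | (ω, b) ∈ Lv V pos γ s i ∩ Cyc V pos γ s i} ⊆
      ⋃ N : ℕ, ⋃ p ∈ (Finset.univ : Finset (Fin (N + 1) → Bool × Fin 5 × Fin R)),
        ⋃ w ∈ F (N + 1) p, A (N + 1) p w := by
    rintro b ⟨h1, h2⟩
    obtain ⟨N, c, h3, h4, h5⟩ := exists_cycle (dir := dir) (slot := slot) (mul := mul)
      (Q := fun e c => e.1 • ω ∈ V ∧ word V pos e.2 (e.1 • (ω, b)) = c.2 ∧
        hdd V pos γ s e.2 (e.1 • (ω, b)) * e.1 = mul c * e.1)
      (H := fun e => hdd V pos γ s e.2 (e.1 • (ω, b)) * e.1)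
      (Lv := fun e => e.1 • (ω, b) ∈ Lv V pos γ s e.2) (fun e c h => h.2.2)
      (fun e he d => ⟨((d, e.2, rsel fun r => (γ r * s (word V pos e.2 (e.1 • (ω, b)))) •
        (e.1 • (ω, b)).1 ∈ V), word V pos e.2 (e.1 • (ω, b))), rfl, rfl, he.1, rfl, rfl⟩) i
      (by simpa using h1) (by
        show Relation.ReflTransGen _ (hdd V pos γ s i ((1 : Γ) • (ω, b)) * 1) 1
        rw [one_smul, mul_one]
        exact h2)
    simp only [Set.mem_iUnion]
    refine ⟨N, fun k => (c k).1, Finset.mem_univ _, fun k => (c k).2, ?_, h4,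
      fun k => ⟨(h5 k).1, (h5 k).2.1⟩⟩
    refine Finset.mem_filter.2 ⟨Finset.mem_univ _, ?_⟩
    refine Eq.trans ?_ h3
    congr 2
    funext k
    simp only [stp, dir, mul]
    cases hd : (c k).1.1 <;> simp
  have hA : ∀ N p w, bitsM Γ (A N p w) ≤ 2⁻¹ ^ (N * m) := by
    intro N p w
    rcases (A N p w).eq_empty_or_nonempty with h | ⟨b0, hb0⟩
    · rw [h]; simp
    set τ := eAt dir slot mul fun k => (p k, w k) with hτ
    have h1 := bits_cyl (Γ := Γ) (fun y : Fin N × Fin m =>
      (pos ((τ y.1).1 • ω) (some ((τ y.1).2, y.2)) * (τ y.1).1, 0)) (by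
        rintro ⟨k, x⟩ ⟨k', x'⟩ h
        simp only [Prod.mk.injEq, and_true] at h
        obtain ⟨h2, h3⟩ := hinj ω _ _ _ _ (hb0.2 k).1 (hb0.2 k').1 h
        simp only [Option.some.injEq, Prod.mk.injEq] at h3
        rw [hb0.1 (Prod.ext h2 h3.1), h3.2]) (fun y => w y.1 y.2)
    rw [Fintype.card_prod, Fintype.card_fin, Fintype.card_fin] at h1
    rw [← h1]
    refine measure_mono ?_
    rintro b hb ⟨k, x⟩
    have h2 := congrFun (hb.2 k).2 x
    simp only [word, Prod.smul_fst, Prod.smul_snd] at h2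
    rw [if_pos (hb.2 k).1, Bits.smul_apply] at h2
    exact h2
  refine (measure_mono hsub).trans ((measure_iUnion_le _).trans ?_)
  have hN : ∀ N : ℕ, bitsM Γ (⋃ p ∈ (Finset.univ : Finset (Fin (N + 1) → Bool × Fin 5 × Fin R)),
      ⋃ w ∈ F (N + 1) p, A (N + 1) p w) ≤ 4⁻¹ * 2⁻¹ ^ (N + 1) := by
    intro N
    refine (measure_biUnion_finset_le _ _).trans ?_
    have h1 : ∀ p, bitsM Γ (⋃ w ∈ F (N + 1) p, A (N + 1) p w) ≤ q ^ (N + 1) := by
      intro p
      refine (measure_biUnion_finset_le _ _).trans ?_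
      refine (Finset.sum_le_sum fun w _ => hA _ p w).trans ?_
      rw [Finset.sum_const, nsmul_eq_mul]
      refine (mul_le_mul_left (hk (N + 1) _ _ _) _).trans (le_of_eq ?_)
      rw [mul_comm (N + 1) m, pow_mul, ← mul_pow, mul_assoc, ← mul_pow,
        ENNReal.mul_inv_cancel (by norm_num) (by norm_num), one_pow, mul_one]
    refine (Finset.sum_le_sum fun p _ => h1 p).trans ?_
    rw [Finset.sum_const, nsmul_eq_mul, Finset.card_univ, Fintype.card_fun, Fintype.card_prod,
      Fintype.card_prod, Fintype.card_bool, Fintype.card_fin, Fintype.card_fin, Fintype.card_fin]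
    push_cast
    rw [← mul_pow]
    refine (pow_le_pow_left' hq _).trans ?_
    rw [mul_pow]
    refine mul_le_mul_left ?_ _
    exact pow_le_of_le_one (by simp) (ENNReal.inv_le_one.2 (by norm_num)) (by omega)
  refine (ENNReal.tsum_le_tsum hN).trans (le_of_eq ?_)
  rw [ENNReal.tsum_mul_left, ENNReal.tsum_geometric_add_one, ENNReal.one_sub_inv_two,
    ENNReal.mul_inv_cancel (by norm_num) (by norm_num), mul_one]

include hinj in
theorem word_prob {ω : Ω} (hω : ω ∈ V) (i : Fin 5) (w : Fin m → F2) :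
    bitsM Γ {b | word V pos i (ω, b) = w} = 2⁻¹ ^ m := by
  have h1 := bits_cyl (Γ := Γ) (fun x : Fin m => (pos ω (some (i, x)), 0)) (by
    intro x x' h
    simp only [Prod.mk.injEq, and_true] at h
    have := (hinj ω 1 1 (some (i, x)) (some (i, x')) (by simpa using hω) (by simpa using hω)
      (by simpa using h)).2
    simpa using this) w
  rw [Fintype.card_fin] at h1
  rw [← h1]
  congr 1
  ext b
  simp only [word, Set.mem_ofPred_eq, funext_iff, if_pos hω]

end comb

section meas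

variable [Countable Γ] [MeasurableSpace Ω] (hact : ∀ g : Γ, Measurable fun ω : Ω => g • ω)
  (hV : MeasurableSet V) (hpos : ∀ o c, MeasurableSet {ω | pos ω o = c})

include hact in
theorem meas_smul (g : Γ) : Measurable fun z : Ω × Bits Γ => g • z :=
  ((hact g).comp measurable_fst).prodMk
    ((measurePreserving_bits_smul g).measurable.comp measurable_snd)

include hV hpos in
theorem meas_word (i : Fin 5) (w : Fin m → F2) : MeasurableSet {z | word V pos i z = w} := by
  classical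
  simp only [funext_iff]
  refine meas_all _ fun x => ?_
  refine meas_dep (fun z : Ω × Bits Γ => pos z.1 (some (i, x)))
    (fun c => measurable_fst (hpos _ c))
    (fun c z => (if z.1 ∈ V then z.2 (c, 0) else 0) = w x) fun c => ?_
  have : Measurable fun z : Ω × Bits Γ => (if z.1 ∈ V then z.2 (c, 0) else 0) :=
    Measurable.ite (measurable_fst hV) ((measurable_bits_apply _).comp measurable_snd)
      measurable_const
  exact this (measurableSet_singleton (w x))

include hact hV hpos in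
theorem meas_hdd (i : Fin 5) (c : Γ) : MeasurableSet {z | hdd V pos γ s i z = c} := by
  refine meas_dep (word V pos i) (meas_word hV hpos i)
    (fun w z => γ (rsel fun r => (γ r * s w) • z.1 ∈ V) * s w = c) fun w => ?_
  refine meas_dep (fun z : Ω × Bits Γ => fun r => (γ r * s w) • z.1 ∈ V) (fun p => ?_)
    (fun p _ => γ (rsel p) * s w = c) fun p => meas_const _
  simp only [funext_iff, eq_iff_iff]
  exact meas_all _ fun r => meas_iff (measurable_fst (hact _ hV)) _

include hact hV hpos in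
theorem meas_Lv (i : Fin 5) : MeasurableSet (Lv V pos γ s i) := by
  refine (measurable_fst hV).inter ?_
  refine meas_dep (word V pos i) (meas_word hV hpos i)
    (fun w z => ∃ r, (γ r * s w) • z.1 ∈ V) fun w => ?_
  exact meas_ex _ fun r => measurable_fst (hact _ hV)

include hact hV hpos in
theorem meas_Cyc (i : Fin 5) : MeasurableSet (Cyc V pos γ s i) := by
  refine meas_dep (hdd V pos γ s i) (meas_hdd hact hV hpos i)
    (fun c z => Relation.ReflTransGen (adj V pos γ s z (1, i)) c 1) fun c => ?_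
  refine meas_rtg (fun z => adj V pos γ s z (1, i)) (fun u v => ?_) c 1
  have key : ∀ (e : Γ × Fin 5) (x : Γ),
      MeasurableSet {z : Ω × Bits Γ | hdd V pos γ s e.2 (e.1 • z) * e.1 = x} := by
    intro e x
    simp only [← eq_mul_inv_iff_mul_eq]
    exact meas_smul hact e.1 (meas_hdd hact hV hpos e.2 _)
  refine meas_ex _ fun e => (meas_const _).inter
    ((meas_smul hact e.1 (meas_Lv hact hV hpos e.2)).inter ?_)
  exact ((meas_const _).inter (key e v)).union ((meas_const _).inter (key e u))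

include hact hV hpos in
theorem meas_US {S : Set Ω} (hS : MeasurableSet S) : MeasurableSet (US V pos S) := by
  refine hS.diff (meas_ex _ fun g => (hact g hV).inter ?_)
  simp only [mul_eq_one_iff_eq_inv]
  exact hact g (hpos none _)

end meas

end Pool.Agent.H726Z.Forest
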