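import Pool.Agent.H726Z.Forest.Core
import Pool.Agent.H701Z.Fiid.Alloc
import Pool.Agent.H701Z.Fiid.Mixing

set_option linter.unusedSectionVars false

namespace Pool.Agent.H726Z.Forest

open MeasureTheory Pool.Agent.H701Z.Fiid
open scoped ENNReal

variable {Γ Ω : Type*} [Group Γ] [DecidableEq Γ] [Countable Γ] [MeasurableSpace Ω] [MulAction Γ Ω]

theorem forest_core (P : Measure Ω) [IsProbabilityMeasure P]
    (hinv : ∀ g : Γ, MeasurePreserving (fun ω : Ω => g • ω) P P) {S V : Set Ω} {m R : ℕ}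
    [NeZero R] (pos : Ω → Option (Fin 5 × Fin m) → Γ) (γ : Fin R → Γ) (s : (Fin m → F2) → Γ)
    (hSm : MeasurableSet S) (hV : MeasurableSet V) (hV0 : 0 < P V)
    (hpos : ∀ o c, MeasurableSet {ω | pos ω o = c})
    (hS : ∀ ω ∈ V, ∀ o, pos ω o • ω ∈ S)
    (hinj : ∀ (ω : Ω) (g g' : Γ) o o', g • ω ∈ V → g' • ω ∈ V →
      pos (g • ω) o * g = pos (g' • ω) o' * g' → g = g' ∧ o = o')
    (hfail : P {ω | ∀ r, γ r • ω ∉ V} ≤ 4⁻¹ * P V) (q : ℝ≥0∞)
    (hk : ∀ (n : ℕ) (l r : Fin n → Γ) (ε : Fin n → Bool),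
      (((Finset.univ : Finset (Fin n → Fin m → F2)).filter fun w =>
        (List.ofFn fun k => l k * (if ε k then s (w k) else (s (w k))⁻¹) * r k).prod = 1).card :
          ℝ≥0∞) ≤ (q * 2 ^ m) ^ n)
    (hq : 2 * (5 * R) * q ≤ 4⁻¹ * 2⁻¹) :
    Forest Γ P S V (US V pos S) (fun ω => pos ω none) 5
      (fun i => Lv V pos γ s i \ Cyc V pos γ s i) (hdd V pos γ s) := by
  classical
  have hact : ∀ g : Γ, Measurable fun ω : Ω => g • ω := fun g => (hinv g).measurable
  have hL : ∀ (ω : Ω) (b b' : Bits Γ), (∀ g : Γ, g • ω ∈ US V pos S → b (g, 0) = b' (g, 0)) →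
      ∀ (g : Γ) i, (g • (ω, b) ∈ Lv V pos γ s i) = (g • (ω, b') ∈ Lv V pos γ s i) := by
    intro ω b b' h g i
    simp only [Lv, Set.mem_ofPred_eq, word_dep hS hinj ω b b' h g i, Prod.smul_fst]
  have hh : ∀ (ω : Ω) (b b' : Bits Γ), (∀ g : Γ, g • ω ∈ US V pos S → b (g, 0) = b' (g, 0)) →
      ∀ (g : Γ) i, hdd V pos γ s i (g • (ω, b)) = hdd V pos γ s i (g • (ω, b')) := by
    intro ω b b' h g i
    simp only [hdd, word_dep hS hinj ω b b' h g i, Prod.smul_fst]
  refine
    { measV := hV
      posV := hV0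
      measU := meas_US hact hV hpos hSm
      subU := Set.diff_subset
      meas_pay := hpos none
      pay_mem := fun ω hω => ⟨hS ω hω _, fun h => h.2 ⟨(pos ω none)⁻¹, by simpa using hω, by simp⟩⟩
      pay_inj := fun ω g g' hg hg' h => (hinj ω g g' _ _ hg hg' h).1
      measGood := fun i => (meas_Lv hact hV hpos i).diff (meas_Cyc hact hV hpos i)
      meas_hd := meas_hdd hact hV hpos
      depGood := ?_
      dep_hd := ?_
      tl_mem := fun i z hz => hz.1.1
      hd_mem := fun i z hz => rsel_spec hz.1.2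
      many := ?_
      acyclic := acyc }
  · intro i ω b b' h
    have h1 := hL ω b b' h 1 i
    have h2 := hh ω b b' h 1 i
    rw [one_smul, one_smul] at h1 h2
    have h3 : adj V pos γ s (ω, b) (1, i) = adj V pos γ s (ω, b') (1, i) := by
      funext u v
      simp only [adj, hL ω b b' h, hh ω b b' h]
    simp only [Set.mem_diff, h1, Cyc, Set.mem_ofPred_eq, h2, h3]
  · intro i ω b b' h
    have h2 := hh ω b b' h 1 i
    rwa [one_smul, one_smul] at h2
  · have key : ∀ i, 2⁻¹ * P V ≤ (P.prod (bitsM Γ)) (Lv V pos γ s i \ Cyc V pos γ s i) := by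
      intro i
      have hLm := meas_Lv (γ := γ) (s := s) hact hV hpos i
      have hCm := meas_Cyc (γ := γ) (s := s) hact hV hpos i
      have h1 : (P.prod (bitsM Γ)) (Lv V pos γ s i ∩ Cyc V pos γ s i) ≤ 4⁻¹ * P V := by
        rw [Measure.prod_apply (hLm.inter hCm), ← lintegral_indicator_const hV]
        refine lintegral_mono fun ω => ?_
        by_cases hω : ω ∈ V
        · rw [Set.indicator_of_mem hω]
          exact cyc_bound hinj q hk hq ω i
        · have : Prod.mk ω ⁻¹' (Lv V pos γ s i ∩ Cyc V pos γ s i) = ∅ :=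
            Set.eq_empty_of_forall_notMem fun b hb => hω hb.1.1
          simp [this]
      have hFm : MeasurableSet {ω : Ω | ∀ r, γ r • ω ∉ V} :=
        meas_all _ fun r => (hact _ hV).compl
      have h2 : (P.prod (bitsM Γ)) (Prod.fst ⁻¹' V \ Lv V pos γ s i) ≤ 4⁻¹ * P V := by
        rw [Measure.prod_apply ((measurable_fst hV).diff hLm)]
        have h3 : ∀ ω, bitsM Γ (Prod.mk ω ⁻¹' (Prod.fst ⁻¹' V \ Lv V pos γ s i)) ≤
            ∑ w : Fin m → F2, ((fun ω : Ω => s w • ω) ⁻¹' {ω : Ω | ∀ r, γ r • ω ∉ V}).indicator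
              (fun _ => (2⁻¹ : ℝ≥0∞) ^ m) ω := by
          intro ω
          by_cases hω : ω ∈ V
          · have h4 : Prod.mk ω ⁻¹' (Prod.fst ⁻¹' V \ Lv V pos γ s i) ⊆
                ⋃ w ∈ (Finset.univ : Finset (Fin m → F2)),
                  {b | word V pos i (ω, b) = w ∧ ∀ r, γ r • s w • ω ∉ V} := by
              rintro b ⟨-, hb⟩
              simp only [Set.mem_iUnion]
              refine ⟨_, Finset.mem_univ _, rfl, fun r hr => hb ⟨hω, r, ?_⟩⟩
              rw [mul_smul]; exact hr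
            refine (measure_mono h4).trans ((measure_biUnion_finset_le _ _).trans
              (Finset.sum_le_sum fun w _ => ?_))
            by_cases hw : ∀ r, γ r • s w • ω ∉ V
            · rw [Set.indicator_of_mem (by exact hw), ← word_prob hinj hω i w]
              exact measure_mono fun b hb => hb.1
            · simp [hw]
          · have : Prod.mk ω ⁻¹' (Prod.fst ⁻¹' V \ Lv V pos γ s i) = ∅ :=
              Set.eq_empty_of_forall_notMem fun b hb => hω hb.1
            simp [this]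
        refine (lintegral_mono h3).trans ?_
        rw [lintegral_finsetSum _ fun w _ => measurable_const.indicator (hact _ hFm)]
        simp only [fun w => lintegral_indicator_const (μ := P) (hact (s w) hFm),
          fun w => (hinv (s w)).measure_preimage hFm.nullMeasurableSet]
        rw [Finset.sum_const, nsmul_eq_mul, Finset.card_univ, Fintype.card_fun, ZMod.card,
          Fintype.card_fin, ← mul_assoc]
        push_cast
        rw [← mul_pow, ENNReal.mul_inv_cancel (by norm_num) (by norm_num), one_pow, one_mul]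
        exact hfail
      have h3 : P V ≤ (P.prod (bitsM Γ)) (Lv V pos γ s i \ Cyc V pos γ s i) + 2⁻¹ * P V := by
        have h4 : (P.prod (bitsM Γ)) (Prod.fst ⁻¹' V) = P V := by
          rw [← Set.prod_univ, Measure.prod_prod, measure_univ, mul_one]
        have h5 : Prod.fst ⁻¹' V ⊆ (Lv V pos γ s i \ Cyc V pos γ s i) ∪
            ((Lv V pos γ s i ∩ Cyc V pos γ s i) ∪ (Prod.fst ⁻¹' V \ Lv V pos γ s i)) := by
          intro z hz
          by_cases h6 : z ∈ Lv V pos γ s i
          · by_cases h7 : z ∈ Cyc V pos γ s i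
            · exact Or.inr (Or.inl ⟨h6, h7⟩)
            · exact Or.inl ⟨h6, h7⟩
          · exact Or.inr (Or.inr ⟨hz, h6⟩)
        have h6 : (4⁻¹ : ℝ≥0∞) + 4⁻¹ = 2⁻¹ := by
          rw [show (4 : ℝ≥0∞) = 2 * 2 by norm_num, ENNReal.mul_inv (by norm_num) (by norm_num),
            ← mul_add, ENNReal.inv_two_add_inv_two, mul_one]
        calc P V = _ := h4.symm
          _ ≤ _ := (measure_mono h5).trans (measure_union_le _ _)
          _ ≤ _ := add_le_add le_rfl ((measure_union_le _ _).trans (add_le_add h1 h2))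
          _ = _ := by rw [← add_mul, h6]
      have h4 : P V = 2⁻¹ * P V + 2⁻¹ * P V := by
        rw [← add_mul, ENNReal.inv_two_add_inv_two, one_mul]
      have h5 : 2⁻¹ * P V ≠ ⊤ := ENNReal.mul_ne_top (by simp) (measure_ne_top _ _)
      exact (ENNReal.add_le_add_iff_right h5).1 (h4 ▸ h3)
    refine lt_of_lt_of_le ?_ (Finset.sum_le_sum fun i _ => key i)
    rw [Finset.sum_const, nsmul_eq_mul, Finset.card_univ, Fintype.card_fin, ← mul_assoc]
    refine ENNReal.mul_lt_mul_left hV0.ne' (measure_ne_top _ _) ?_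
    rw [← div_eq_mul_inv, ENNReal.lt_div_iff_mul_lt (by norm_num) (by norm_num)]
    norm_num

theorem exists_forest_of [Infinite Γ] (P : Measure Ω) (S : Set Ω) (hB : Base Γ P S)
    (hK : ∃ (a : ℕ) (θ : ℝ), 0 < θ ∧ θ < 1 ∧ ∀ j : ℕ, ∃ s : (Fin (j * a) → F2) → Γ,
      ∀ (n : ℕ) (l r : Fin n → Γ) (ε : Fin n → Bool),
        (((Finset.univ : Finset (Fin n → Fin (j * a) → F2)).filter fun w =>
          (List.ofFn fun k => l k * (if ε k then s (w k) else (s (w k))⁻¹) * r k).prod = 1).card : ℝ)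
          ≤ (θ ^ j * 2 ^ (j * a)) ^ n) :
    ∃ (V U : Set Ω) (pay : Ω → Γ) (D : ℕ) (Good : Fin D → Set (Ω × Bits Γ))
      (hd : Fin D → Ω × Bits Γ → Γ), Forest Γ P S V U pay D Good hd := by
  classical
  have := hB.prob
  obtain ⟨a, θ, h0, h1, hk⟩ := hK
  have hσ : 0 < P.real S := ENNReal.toReal_pos hB.posS.ne' (measure_ne_top _ _)
  obtain ⟨ε, hε, hnum⟩ := numeric θ h0 h1 a _ hσ
  obtain ⟨V0, hV0m, hv0, hv1⟩ := hB.small ε hε
  obtain ⟨R, j, hR, hR1, hR2, hR3⟩ := hnum _ hv0 hv1
  obtain ⟨s, hs⟩ := hk j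
  have : NeZero R := ⟨hR.ne'⟩
  set K : ℕ := 5 * (j * a) + 1 with hK
  obtain ⟨W, hW1, hW2, hW3, -, hW5⟩ := alloc (J := Unit) P hB.inv hB.erg0
    (V0.indicator fun _ => K) (measurable_const.indicator hV0m) (fun _ => S) (fun _ => hB.measS) (by
      have : (fun ω => ((V0.indicator (fun _ => K) ω : ℕ) : ℝ≥0∞)) =
          V0.indicator fun _ => (K : ℝ≥0∞) := by
        funext ω
        by_cases h : ω ∈ V0 <;> simp [h]
      rw [this, lintegral_indicator_const hV0m, Finset.sum_const, Finset.card_univ,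
        Fintype.card_unit, one_smul,
        ← ENNReal.toReal_lt_toReal (ENNReal.mul_ne_top (by simp) (measure_ne_top _ _))
          (measure_ne_top _ _), ENNReal.toReal_mul, ENNReal.toReal_natCast]
      exact hR3)
  have hWm : ∀ F, MeasurableSet {ω | W ω = F} := fun F => by
    simp only [Finset.ext_iff]
    exact meas_all _ fun p => meas_iff (hW1 p) _
  set V : Set Ω := V0 ∩ {ω | (W ω).card = K} with hVdef
  have hVm : MeasurableSet V :=
    hV0m.inter (meas_dep W hWm (fun F _ => F.card = K) fun F => meas_const _)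
  have hPV : P V = P V0 := by
    refine measure_congr ?_
    filter_upwards [hW5] with ω hω
    refine propext ⟨fun h => h.1, fun h => ⟨h, ?_⟩⟩
    rw [Set.indicator_of_mem (by exact h)] at hω
    exact hω
  have hPV' : P.real V = P.real V0 := by simp only [Measure.real, hPV]
  have hcard : ∀ F : Finset (Γ × Unit), F.card = K →
      Fintype.card (Option (Fin 5 × Fin (j * a))) = Fintype.card F := fun F hF => by
    simp [hF, hK]
  let posF : Finset (Γ × Unit) → Option (Fin 5 × Fin (j * a)) → Γ := fun F o =>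
    if h : F.card = K then (Fintype.equivOfCardEq (hcard F h) o).1.1 else 1
  have hp1 : ∀ F, F.card = K → ∀ o, (posF F o, ()) ∈ F := fun F hF o => by
    simp only [posF, dif_pos hF]
    exact (Fintype.equivOfCardEq (hcard F hF) o).2
  have hp2 : ∀ F, F.card = K → ∀ o o', posF F o = posF F o' → o = o' := fun F hF o o' h => by
    simp only [posF, dif_pos hF] at h
    exact (Fintype.equivOfCardEq (hcard F hF)).injective (Subtype.ext (Prod.ext h rfl))
  obtain ⟨γ, hγ⟩ := hB.hit V hVm (by rw [hPV']; exact hv0) R hR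
  refine ⟨V, _, _, 5, _, _, forest_core P hB.inv (fun ω => posF (W ω)) γ s hB.measS hVm ?_
    (fun o c => meas_dep W hWm (fun F _ => posF F o = c) fun F => meas_const _)
    (fun ω hω o => hW2 ω _ (hp1 _ hω.2 o)) ?_ ?_ (ENNReal.ofReal (θ ^ j)) ?_ ?_⟩
  · rw [hPV]
    exact (ENNReal.toReal_pos_iff.1 hv0).1
  · intro ω g g' o o' hg hg' h
    have h2 := hW3 ω g g' _ (hp1 _ hg.2 o) _ (hp1 _ hg'.2 o') h rfl
    subst h2
    exact ⟨rfl, hp2 _ hg.2 _ _ (mul_right_cancel h)⟩
  · rw [← ENNReal.toReal_le_toReal (measure_ne_top _ _)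
      (ENNReal.mul_ne_top (by simp) (measure_ne_top _ _)), ENNReal.toReal_mul]
    rw [hPV'] at hγ
    have h2 : (P V).toReal = P.real V0 := hPV'
    rw [h2, ENNReal.toReal_inv, ENNReal.toReal_ofNat]
    refine hγ.trans (hR1.trans (le_of_eq ?_))
    ring
  · intro n l r ε
    have h2 := ENNReal.ofReal_le_ofReal (hs n l r ε)
    rw [ENNReal.ofReal_natCast, ENNReal.ofReal_pow (by positivity),
      ENNReal.ofReal_mul (by positivity), ENNReal.ofReal_pow (p := 2) (by norm_num),
      ENNReal.ofReal_ofNat] at h2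
    exact h2
  · have h2 := ENNReal.ofReal_le_ofReal hR2
    rw [ENNReal.ofReal_mul (by positivity), ENNReal.ofReal_mul (by positivity),
      ENNReal.ofReal_mul (by positivity), ENNReal.ofReal_natCast, ENNReal.ofReal_ofNat,
      ENNReal.ofReal_ofNat] at h2
    refine h2.trans (le_of_eq ?_)
    rw [← ENNReal.mul_inv (by norm_num) (by norm_num), one_div,
      ENNReal.ofReal_inv_of_pos (by norm_num), ENNReal.ofReal_ofNat]
    norm_num

end Pool.Agent.H726Z.Forest
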