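import Pool.Agent.H701Z.Fiid.ForestDef

namespace Pool.Agent.H726Z.Forest

open MeasureTheory Pool.Agent.H701Z.Fiid

section walk

variable {Γ I T : Type*} [Group Γ] (dir : T → Bool) (slot : T → I) (mul : T → Γ)

/-- the multiplier of a step -/
def stp (c : T) : Γ := if dir c then mul c else (mul c)⁻¹

/-- the edge used by a step from `u` -/
def eOf (u : Γ) (c : T) : Γ × I := (if dir c then u else stp dir mul c * u, slot c)

/-- the edges used by a list of steps -/
def edges : Γ → List T → List (Γ × I)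
  | _, [] => []
  | u, c :: L => eOf dir slot mul u c :: edges (stp dir mul c * u) L

/-- valid walks -/
def Val (Q : Γ × I → T → Prop) : Γ → List T → Γ → Prop
  | u, [], v => u = v
  | u, c :: L, v => Q (eOf dir slot mul u c) c ∧ Val Q (stp dir mul c * u) L v

variable {dir slot mul}

theorem Val.prod {Q : Γ × I → T → Prop} : ∀ {L : List T} {u v : Γ}, Val dir slot mul Q u L v →
    u = (L.map fun c => (stp dir mul c)⁻¹).prod * v
  | [], _, _, h => by simpa [Val] using h
  | c :: L, u, v, h => by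
    have := Val.prod h.2
    rw [List.map_cons, List.prod_cons, mul_assoc, ← this]
    simp

theorem Val.forall₂ {Q : Γ × I → T → Prop} : ∀ {L : List T} {u v : Γ}, Val dir slot mul Q u L v →
    List.Forall₂ Q (edges dir slot mul u L) L
  | [], _, _, _ => List.Forall₂.nil
  | _ :: _, _, _, h => List.Forall₂.cons h.1 (Val.forall₂ h.2)

theorem Val.suffix {Q : Γ × I → T → Prop} {H : Γ × I → Γ}
    (hQ : ∀ e c, Q e c → H e = mul c * e.1) {e : Γ × I} {x : Γ} (hx : x = e.1 ∨ x = H e) :
    ∀ {L : List T} {u v : Γ}, Val dir slot mul Q u L v → e ∈ edges dir slot mul u L →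
      ∃ L', Val dir slot mul Q x L' v ∧
        (edges dir slot mul x L').Sublist (edges dir slot mul u L)
  | [], _, _, _, he => by simp [edges] at he
  | c :: L, u, v, h, he => by
    rcases List.mem_cons.1 he with rfl | he
    · have h1 := hQ _ _ h.1
      have h2 : x = u ∨ x = stp dir mul c * u := by
        rcases hx with hx | hx
        · cases hd : dir c
          · right; rw [hx]; simp [eOf, hd]
          · left; rw [hx]; simp [eOf, hd]
        · cases hd : dir c
          · left; rw [hx, h1]; simp [eOf, hd, stp]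
          · right; rw [hx, h1]; simp [eOf, hd, stp]
      rcases h2 with rfl | rfl
      · exact ⟨c :: L, h, List.Sublist.refl _⟩
      · exact ⟨L, h.2, List.sublist_cons_self _ _⟩
    · obtain ⟨L', h1, h2⟩ := Val.suffix hQ hx h.2 he
      exact ⟨L', h1, h2.trans (List.sublist_cons_self _ _)⟩

theorem exists_walk {Q : Γ × I → T → Prop} {H : Γ × I → Γ} {Al : Γ × I → Prop}
    (hQ : ∀ e c, Q e c → H e = mul c * e.1)
    (hex : ∀ e, Al e → ∀ d, ∃ c, dir c = d ∧ slot c = e.2 ∧ Q e c) {u v : Γ}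
    (h : Relation.ReflTransGen
      (fun u v => ∃ e, Al e ∧ ((e.1 = u ∧ H e = v) ∨ (e.1 = v ∧ H e = u))) u v) :
    ∃ L, Val dir slot mul Q u L v ∧ (edges dir slot mul u L).Nodup ∧
      ∀ e ∈ edges dir slot mul u L, Al e := by
  induction h using Relation.ReflTransGen.head_induction_on with
  | refl => exact ⟨[], rfl, List.nodup_nil, by simp [edges]⟩
  | @head u u' h _ ih =>
    obtain ⟨L, h1, h2, h3⟩ := ih
    obtain ⟨e, he, h⟩ := h
    by_cases hmem : e ∈ edges dir slot mul u' L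
    · obtain ⟨L', h4, h5⟩ := Val.suffix (x := u) hQ (by
        rcases h with h | h
        · exact Or.inl h.1.symm
        · exact Or.inr h.2.symm) h1 hmem
      exact ⟨L', h4, h2.sublist h5, fun e he => h3 e (h5.subset he)⟩
    · obtain ⟨c, h4, h5, h6⟩ : ∃ c, eOf dir slot mul u c = e ∧ stp dir mul c * u = u' ∧ Q e c := by
        rcases h with h | h
        · obtain ⟨c, hc1, hc2, hc3⟩ := hex e he true
          refine ⟨c, ?_, ?_, hc3⟩
          · simp [eOf, hc1, hc2, ← h.1]
          · rw [← h.2, hQ _ _ hc3, ← h.1]; simp [stp, hc1]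
        · obtain ⟨c, hc1, hc2, hc3⟩ := hex e he false
          have : stp dir mul c * u = u' := by
            rw [← h.2, hQ _ _ hc3, ← h.1]; simp [stp, hc1]
          refine ⟨c, ?_, this, hc3⟩
          simp [eOf, hc1, hc2, this, ← h.1]
      refine ⟨c :: L, ⟨by rw [h4]; exact h6, by rw [h5]; exact h1⟩, ?_, ?_⟩
      · simp only [edges, h4, h5]
        exact List.nodup_cons.2 ⟨hmem, h2⟩
      · simp only [edges, h4, h5]
        intro e' he'
        rcases List.mem_cons.1 he' with rfl | he'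
        · exact he
        · exact h3 e' he'

/-- the edge used by the `k`-th step of a walk from the identity -/
def eAt (dir : T → Bool) (slot : T → I) (mul : T → Γ) {N : ℕ} (c : Fin N → T) (k : Fin N) :
    Γ × I :=
  (edges dir slot mul 1 (List.ofFn c)).getD k (1, slot (c k))

theorem exists_cycle {Q : Γ × I → T → Prop} {H : Γ × I → Γ} {Lv : Γ × I → Prop}
    (hQ : ∀ e c, Q e c → H e = mul c * e.1)
    (hex : ∀ e, Lv e → ∀ d, ∃ c, dir c = d ∧ slot c = e.2 ∧ Q e c) (i : I) (hi : Lv (1, i))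
    (h : Relation.ReflTransGen
      (fun u v => ∃ e, e ≠ (1, i) ∧ Lv e ∧ ((e.1 = u ∧ H e = v) ∨ (e.1 = v ∧ H e = u)))
      (H (1, i)) 1) :
    ∃ (N : ℕ) (c : Fin (N + 1) → T), (List.ofFn fun k => (stp dir mul (c k))⁻¹).prod = 1 ∧
      Function.Injective (eAt dir slot mul c) ∧ ∀ k, Q (eAt dir slot mul c k) (c k) := by
  obtain ⟨L, h1, h2, h3⟩ := exists_walk (dir := dir) (slot := slot) (mul := mul)
    (Al := fun e => e ≠ (1, i) ∧ Lv e) hQ (fun e he => hex e he.2)
    (Relation.ReflTransGen.mono (fun u v ⟨e, h1, h2, h3⟩ => ⟨e, ⟨h1, h2⟩, h3⟩) _ _ h)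
  obtain ⟨c, hc1, hc2, hc3⟩ := hex _ hi true
  have h4 : eOf dir slot mul 1 c = (1, i) := by simp [eOf, hc1, hc2]
  have h5 : stp dir mul c * 1 = H (1, i) := by rw [hQ _ _ hc3]; simp [stp, hc1]
  have hV : Val dir slot mul Q 1 (c :: L) 1 := ⟨by rw [h4]; exact hc3, by rw [h5]; exact h1⟩
  have hN : (edges dir slot mul 1 (c :: L)).Nodup := by
    simp only [edges, h4, h5]
    exact List.nodup_cons.2 ⟨fun h => (h3 _ h).1 rfl, h2⟩
  obtain ⟨hlen, hF⟩ := List.forall₂_iff_get.1 hV.forall₂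
  have hof : List.ofFn (c :: L).get = c :: L := List.ofFn_get _
  have hat : ∀ k : Fin (L.length + 1), eAt dir slot mul (N := L.length + 1) (c :: L).get k =
      (edges dir slot mul 1 (c :: L)).get ⟨k, by rw [hlen]; exact k.2⟩ := by
    intro k
    unfold eAt
    rw [hof, List.getD_eq_getElem _ _ (by rw [hlen]; exact k.2)]
    rfl
  refine ⟨L.length, (c :: L).get, ?_, ?_, ?_⟩
  · have := hV.prod
    rw [mul_one, ← hof, List.map_ofFn] at this
    exact this.symm
  · intro k k' hk
    rw [hat, hat] at hk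
    have := (List.nodup_iff_injective_get.1 hN) hk
    exact Fin.ext (Fin.mk.inj_iff.1 this)
  · intro k
    rw [hat]
    exact hF k _ k.2

end walk

section meas

variable {α : Type*} [MeasurableSpace α]

theorem meas_dep {C : Type*} [Countable C] (f : α → C) (hf : ∀ c, MeasurableSet {x | f x = c})
    (A : C → α → Prop) (hA : ∀ c, MeasurableSet {x | A c x}) : MeasurableSet {x | A (f x) x} := by
  have : {x | A (f x) x} = ⋃ c, ({x | f x = c} ∩ {x | A c x}) := by
    ext x; simp
  rw [this]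
  exact MeasurableSet.iUnion fun c => (hf c).inter (hA c)

theorem meas_const (p : Prop) : MeasurableSet {_x : α | p} := MeasurableSet.const p

theorem meas_ex {C : Type*} [Countable C] (A : C → α → Prop) (hA : ∀ c, MeasurableSet {x | A c x}) :
    MeasurableSet {x | ∃ c, A c x} := by
  rw [Set.ofPred_exists]
  exact MeasurableSet.iUnion hA

theorem meas_all {C : Type*} [Countable C] (A : C → α → Prop)
    (hA : ∀ c, MeasurableSet {x | A c x}) : MeasurableSet {x | ∀ c, A c x} := by
  rw [Set.ofPred_forall]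
  exact MeasurableSet.iInter hA

theorem meas_iff {A : α → Prop} (hA : MeasurableSet {x | A x}) (p : Prop) :
    MeasurableSet {x | A x ↔ p} := by
  by_cases hp : p
  · simpa [hp] using hA
  · have : {x | A x ↔ p} = {x | A x}ᶜ := by ext x; simp [hp]
    rw [this]; exact hA.compl

/-- reachability in exactly `n` steps -/
def Rn {C : Type*} (r : C → C → Prop) : ℕ → C → C → Prop
  | 0, u, v => u = v
  | n + 1, u, v => ∃ x, r u x ∧ Rn r n x v

theorem rtg_iff {C : Type*} (r : C → C → Prop) (u v : C) :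
    Relation.ReflTransGen r u v ↔ ∃ n, Rn r n u v := by
  constructor
  · intro h
    induction h using Relation.ReflTransGen.head_induction_on with
    | refl => exact ⟨0, rfl⟩
    | head h _ ih =>
      obtain ⟨n, hn⟩ := ih
      exact ⟨n + 1, _, h, hn⟩
  · rintro ⟨n, hn⟩
    induction n generalizing u with
    | zero => rw [show u = v from hn]
    | succ n ih =>
      obtain ⟨x, h1, h2⟩ := hn
      exact (ih x h2).head h1

theorem meas_rtg {C : Type*} [Countable C] (r : α → C → C → Prop)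
    (hr : ∀ u v, MeasurableSet {x | r x u v}) (u v : C) :
    MeasurableSet {x | Relation.ReflTransGen (r x) u v} := by
  simp only [rtg_iff]
  refine meas_ex _ fun n => ?_
  induction n generalizing u with
  | zero => exact meas_const _
  | succ n ih => exact meas_ex (fun y x => r x u y ∧ Rn (r x) n y v) fun y => (hr u y).inter (ih y)

end meas

theorem bits_cyl {Γ ι : Type*} [Fintype ι] (φ : ι → Γ × ℕ) (hφ : Function.Injective φ)
    (y : ι → F2) : bitsM Γ {b | ∀ p, b (φ p) = y p} = 2⁻¹ ^ Fintype.card ι := by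
  have h := Measure.map_infinitePi_infinitePi_of_inj (P := fun _ : Γ × ℕ => fair) (f := φ) hφ
  have hm : Measurable fun (b : Γ × ℕ → F2) (p : ι) => b (φ p) :=
    measurable_pi_lambda _ fun p => measurable_pi_apply _
  have h2 := congrArg (fun μ : Measure (ι → F2) => μ {y}) h
  beta_reduce at h2
  rw [Measure.map_apply hm (measurableSet_singleton y), Measure.infinitePi_eq_pi (fun _ : ι => fair),
    ← Set.univ_pi_singleton, Measure.pi_pi] at h2
  simp only [fair_singleton, Finset.prod_const, Finset.card_univ] at h2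
  rw [← h2]
  change Measure.infinitePi _ _ = _
  congr 1
  ext b
  exact ⟨fun h p _ => h p, fun h p => h p trivial⟩

theorem numeric (θ : ℝ) (h0 : 0 < θ) (h1 : θ < 1) (a : ℕ) (σ : ℝ) (hσ : 0 < σ) :
    ∃ ε : ℝ, 0 < ε ∧ ∀ v : ℝ, 0 < v → v < ε → ∃ R j : ℕ, 0 < R ∧ 2 / (R * v ^ 2) ≤ v / 4 ∧
      2 * (5 * R) * θ ^ j ≤ 1 / 8 ∧ (5 * (j * a) + 1 : ℕ) * v < σ := by
  obtain ⟨c, hc⟩ := exists_pow_lt_of_lt_one (show (0 : ℝ) < 1 / 2 by norm_num) h1
  have ht : Filter.Tendsto (fun k : ℕ => (15 * c * a : ℝ) * (k * (1 / 2 : ℝ) ^ k) +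
      (65 * c * a + 1 : ℝ) * (1 / 2 : ℝ) ^ k) Filter.atTop (nhds 0) := by
    have h2 := tendsto_self_mul_const_pow_of_lt_one (r := (1 / 2 : ℝ)) (by norm_num) (by norm_num)
    have h3 := tendsto_pow_atTop_nhds_zero_of_lt_one (r := (1 / 2 : ℝ)) (by norm_num) (by norm_num)
    simpa using (h2.const_mul (15 * c * a : ℝ)).add (h3.const_mul (65 * c * a + 1 : ℝ))
  obtain ⟨k0, hk0⟩ := Filter.eventually_atTop.1 (ht.eventually (gt_mem_nhds hσ))
  refine ⟨(1 / 2) ^ k0, by positivity, fun v hv hv' => ?_⟩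
  have hv1 : v ≤ 1 := hv'.le.trans (pow_le_one₀ (by norm_num) (by norm_num))
  obtain ⟨k, hk1, hk2⟩ := exists_nat_pow_near_of_lt_one hv hv1
    (show (0 : ℝ) < 1 / 2 by norm_num) (by norm_num)
  have hkk : k0 ≤ k := by
    have := (pow_lt_pow_iff_right_of_lt_one₀ (show (0 : ℝ) < 1 / 2 by norm_num)
      (by norm_num)).1 (hk1.trans hv')
    omega
  have hv3 : 0 < v ^ 3 := by positivity
  have hv31 : v ^ 3 ≤ 1 := pow_le_one₀ hv.le hv1
  have hR1 : 8 / v ^ 3 ≤ (⌈8 / v ^ 3⌉₊ : ℝ) := Nat.le_ceil _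
  have hR2 : (⌈8 / v ^ 3⌉₊ : ℝ) ≤ 9 / v ^ 3 := by
    have := Nat.ceil_lt_add_one (show 0 ≤ 8 / v ^ 3 by positivity)
    have h2 : 1 ≤ 1 / v ^ 3 := by rw [le_div_iff₀ hv3]; linarith
    have h3 : 9 / v ^ 3 = 8 / v ^ 3 + 1 / v ^ 3 := by ring
    linarith
  have hR0 : (0 : ℝ) < ⌈8 / v ^ 3⌉₊ := lt_of_lt_of_le (by positivity) hR1
  refine ⟨⌈8 / v ^ 3⌉₊, c * (3 * (k + 1) + 10), by exact_mod_cast hR0, ?_, ?_, ?_⟩
  · rw [div_le_div_iff₀ (by positivity) (by norm_num)]
    rw [div_le_iff₀ hv3] at hR1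
    nlinarith
  · have h2 : θ ^ (c * (3 * (k + 1) + 10)) ≤ v ^ 3 / 1024 := by
      rw [pow_mul]
      refine (pow_le_pow_left₀ (by positivity) hc.le _).trans ?_
      rw [pow_add, mul_comm 3, pow_mul]
      have := pow_le_pow_left₀ (by positivity) hk1.le 3
      norm_num at this ⊢
      linarith
    calc 2 * (5 * (⌈8 / v ^ 3⌉₊ : ℝ)) * θ ^ (c * (3 * (k + 1) + 10))
        ≤ 2 * (5 * (9 / v ^ 3)) * (v ^ 3 / 1024) := by gcongr
      _ = 90 / 1024 := by field_simp; norm_num
      _ ≤ 1 / 8 := by norm_num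
  · refine lt_of_le_of_lt ?_ (hk0 k hkk)
    refine (mul_le_mul_of_nonneg_left hk2 (Nat.cast_nonneg _)).trans (le_of_eq ?_)
    push_cast
    ring

end Pool.Agent.H726Z.Forest
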